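import Pool.Agent.H53.GC.Targets
import Pool.Agent.H68.BT.Red

/-!
# The reduction to the finite template is computable in polynomial time
-/

set_option autoImplicit false

namespace Pool.Agent.H74.GC

open Pool.Agent.H1.NP Pool.Agent.H1.PNP
open Pool.Agent.H68.OQP hiding eN eE
open Pool.Agent.H68.NPH hiding prs eN
open Function
open Pool.Agent.H68.BP (ph cV cC eE eN eZ code code_eq CSP csp_code csp_true code_of_cV ph_vals
  strOf polyOn_numsR lgF Sig Str IsHom)
open Pool.Agent.H68.BT (Wg Cv Corr rowG rowG_length rowG_map rowG_mem rowG_getD csp_nil)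
open Pool.Agent.H53.GC

variable {l env : List ℕ}

/-! ### Nested loops -/

/-- `k` nested loops -/
def nest (e : Ex) : ℕ → Wg → Wg
  | 0, g => g
  | k + 1, g => .loop e (nest e k g)

theorem mem_nest {e : Ex} {B : ℕ} {l : List ℕ} (he : ∀ env, e.val l env = B) (g : Wg)
    {x : List ℕ} : ∀ (k : ℕ) (env : List ℕ), x ∈ Wg.out l env (nest e k g) ↔
      ∃ ys : List ℕ, ys.length = k ∧ (∀ v ∈ ys, v < B) ∧ x ∈ Wg.out l (ys ++ env) g := by
  intro k
  induction k with
  | zero =>
    intro env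
    constructor
    · intro h
      exact ⟨[], rfl, by simp, h⟩
    · rintro ⟨ys, h1, -, h3⟩
      rw [List.length_eq_zero_iff] at h1
      subst h1
      exact h3
  | succ k ih =>
    intro env
    have e1 : nest e (k + 1) g = .loop e (nest e k g) := rfl
    rw [e1, Wg.mem_loop, he]
    constructor
    · rintro ⟨i, hi, hx⟩
      obtain ⟨ys, h1, h2, h3⟩ := (ih _).1 hx
      refine ⟨ys ++ [i], by simp [h1], ?_, by simpa using h3⟩
      intro v hv
      rcases List.mem_append.1 hv with hv | hv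
      · exact h2 v hv
      · rw [List.mem_singleton] at hv
        subst hv
        exact hi
    · rintro ⟨ys, h1, h2, h3⟩
      have hne : ys ≠ [] := by
        rintro rfl
        simp at h1
      refine ⟨ys.getLast hne, h2 _ (List.getLast_mem hne), (ih _).2
        ⟨ys.dropLast, by simp [h1], fun v hv => h2 v (List.mem_of_mem_dropLast hv), ?_⟩⟩
      have e2 : ys.dropLast ++ ys.getLast hne :: env = ys ++ env := by
        conv_rhs => rw [← List.dropLast_append_getLast hne]
        simp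
      rw [e2]
      exact h3

/-! ### The signature of the template -/

/-- The signature of the template. -/
@[reducible] def rT (σ : Sig) (M : ℕ) : Pool.Agent.H69.BP.Sig where
  Sym := Sym σ M
  Ar := fun s => Fin (arP σ M s.1) × Fin (arP σ M s.1)
  finSym := inferInstance
  finAr := fun _ => inferInstance

/-- The numbering. -/
noncomputable def cvT (σ : Sig) (M : ℕ) :
    Cv (rT σ M) (sigOf (Sym σ M) (fun s => Fin (arP σ M s.1) × Fin (arP σ M s.1))) where
  e := Finite.equivFin (Sym σ M)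
  a := fun s => (Finite.equivFin (Fin (arP σ M s.1) × Fin (arP σ M s.1))).trans (finCongr (by
    change _ = Nat.card (Fin (arP σ M ((Finite.equivFin (Sym σ M)).symm
      (Finite.equivFin (Sym σ M) s)).1) × Fin (arP σ M ((Finite.equivFin (Sym σ M)).symm
      (Finite.equivFin (Sym σ M) s)).1))
    rw [Equiv.symm_apply_apply]))

theorem strOn_corr {σ : Sig} {M : ℕ} {Y : Type}
    (R : (s : Sym σ M) → (Fin (arP σ M s.1) × Fin (arP σ M s.1) → Y) → Prop) :
    Corr (cvT σ M) (fun s x => R s x) (strOn R) := by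
  intro s x
  have key : ∀ (s' : Sym σ M) (h : s' = s)
      (hc : Nat.card (Fin (arP σ M s.1) × Fin (arP σ M s.1)) =
        Nat.card (Fin (arP σ M s'.1) × Fin (arP σ M s'.1)))
      (x : Fin (Nat.card (Fin (arP σ M s'.1) × Fin (arP σ M s'.1))) → Y),
      R s' (fun p => x (Finite.equivFin (Fin (arP σ M s'.1) × Fin (arP σ M s'.1)) p)) ↔
      R s (x ∘ ((Finite.equivFin (Fin (arP σ M s.1) × Fin (arP σ M s.1))).trans
        (finCongr hc))) := by
    rintro s' rfl hc x
    exact Iff.rfl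
  exact key ((Finite.equivFin (Sym σ M)).symm (Finite.equivFin (Sym σ M) s))
    (Equiv.symm_apply_apply _ _) _ x

/-! ### The rows -/

/-- the order of the entries -/
def cO {m : ℕ} (Y : Fin m → Ex) (τ : Fin m → Fin m) : Cd :=
  Cd.all (List.finRange m) (fun a => Cd.all (List.finRange m) (fun b =>
    if τ a ≤ τ b then Cd.le (Y a) (Y b) else Cd.lt (Y b) (Y a)))

theorem tv_cO {m : ℕ} {Y : Fin m → Ex} {τ : Fin m → Fin m} : (cO Y τ).tv l env ↔
    ∀ a b, (Y a).val l env ≤ (Y b).val l env ↔ τ a ≤ τ b := by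
  simp only [cO, tv_all]
  constructor
  · intro h a b
    have h1 := h a (List.mem_finRange a) b (List.mem_finRange b)
    by_cases h2 : τ a ≤ τ b
    · rw [if_pos h2, tv_le] at h1
      exact ⟨fun _ => h2, fun _ => h1⟩
    · rw [if_neg h2, tv_lt] at h1
      exact ⟨fun h3 => absurd h3 (by omega), fun h3 => absurd h3 h2⟩
  · intro h a _ b _
    by_cases h2 : τ a ≤ τ b
    · rw [if_pos h2, tv_le]
      exact (h a b).2 h2
    · rw [if_neg h2, tv_lt]
      by_contra h3
      exact h2 ((h a b).1 (by omega))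

open Classical in
/-- an entry of a row -/
noncomputable def ent {α : Type} {m : ℕ} (z : α) (pr : α → α → α) (Y : Fin m → α)
    (τ : Fin m → Fin m) (p : Fin m × Fin m) : α :=
  if h : ∃ ab : Fin m × Fin m, τ ab.1 = p.1 ∧ τ ab.2 = p.2 ∧ p.1 ≤ p.2 then
    pr (Y h.choose.1) (Y h.choose.2) else z

/-- the bound of the loops -/
def eB (M : ℕ) : Ex := .add eN (.con M)

/-- pairs -/
def prE (M : ℕ) (a b : Ex) : Ex := .add b (.mul (eB M) a)

theorem ent_val {m n M : ℕ} (hn : ∀ env, (eN).val l env = n) {Y : Fin m → Ex} {y : Fin m → ℕ}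
    {τ : Fin m → Fin m} (hv : ∀ a, (Y a).val l env = y a) (p : Fin m × Fin m) :
    (ent (Ex.con 0) (prE M) Y τ p).val l env = ent 0 (fun a b => b + (n + M) * a) y τ p := by
  unfold ent
  split_ifs with h
  · simp only [prE, eB, Ex.val, hn, hv]
  · rfl

theorem ent_eq {m N : ℕ} {y : Fin m → ℕ} {τ : Fin m → Fin m}
    (h : ∀ a b, y a ≤ y b ↔ τ a ≤ τ b) {a b : Fin m} (hab : τ a ≤ τ b) :
    ent 0 (fun a b => b + N * a) y τ (τ a, τ b) = y b + N * y a := by
  have h1 : ∃ ab : Fin m × Fin m, τ ab.1 = (τ a, τ b).1 ∧ τ ab.2 = (τ a, τ b).2 ∧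
      (τ a, τ b).1 ≤ (τ a, τ b).2 := ⟨(a, b), rfl, rfl, hab⟩
  have h2 : ∀ {i j : Fin m}, τ i = τ j → y i = y j := fun {i j} hij =>
    le_antisymm ((h i j).2 hij.le) ((h j i).2 hij.ge)
  unfold ent
  rw [dif_pos h1]
  have h3 := h1.choose_spec
  change y h1.choose.2 + N * y h1.choose.1 = _
  rw [h2 h3.1, h2 h3.2.1]

theorem ent_lt {m N : ℕ} {y : Fin m → ℕ} {τ : Fin m → Fin m} (h : ∀ a, y a < N)
    (p : Fin m × Fin m) : ent 0 (fun a b => b + N * a) y τ p < N * N := by
  have hN : 0 < N := lt_of_le_of_lt (Nat.zero_le _) (h p.1)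
  unfold ent
  split_ifs with h1
  · have h2 := h h1.choose.1
    have h3 := h h1.choose.2
    have h4 : N * (y h1.choose.1 + 1) ≤ N * N := Nat.mul_le_mul_left _ h2
    rw [Nat.mul_add, Nat.mul_one] at h4
    change y h1.choose.2 + N * y h1.choose.1 < N * N
    omega
  · exact Nat.mul_pos hN hN

/-! ### The program -/

section prog

variable {σ : Sig} {M : ℕ}

/-- the rows -/
noncomputable def pA (σ : Sig) (M : ℕ) : Wg :=
  .seq (nest (eB M) M (Wg.many (Finset.univ : Finset (Fin M → Fin M)).toList (fun τ =>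
      .cond (cO (fun a : Fin M => Ex.var a) τ)
        (.row (rowG (cvT σ M) Ex.con (⟨none, τ⟩ : Sym σ M)
          (ent (Ex.con 0) (prE M) (fun a : Fin M => Ex.var a) τ))))))
    (.loop eZ (Wg.many (List.finRange σ.m) (fun l =>
      Wg.many (Finset.univ : Finset (Fin (σ.ar l) → Fin (σ.ar l))).toList (fun τ =>
        .cond ((cC σ l).and (cO (fun a : Fin (σ.ar l) => eE σ (a + 1)) τ))
          (.row (rowG (cvT σ M) Ex.con (⟨some l, τ⟩ : Sym σ M)
            (ent (Ex.con 0) (prE M) (fun a : Fin (σ.ar l) => eE σ (a + 1)) τ)))))))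

/-- the whole program -/
noncomputable def pT (σ : Sig) (M : ℕ) : Lg :=
  cV.ite (.seq (.el (.mul (eB M) (eB M))) (pA σ M).toLg) .nil

/-- the output -/
noncomputable def red (σ : Sig) (M : ℕ) (x : List Bool) : List ℕ :=
  (pT σ M).out (ph (σ.width + 1) x) []

theorem polyOn_red : PolyOn (fun w : List Bool => w) unary (red σ M) :=
  ((polyOn_numsR.comp (polyOn_lg (lgF (σ.width + 1)))).comp (polyOn_lg (pT σ M))).congr
    (fun q => q) (fun _ => rfl) (fun _ => rfl)

theorem red_bad {x : List Bool} (h : ¬ cV.tv (ph (σ.width + 1) x) []) : red σ M x = [] := by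
  unfold red pT
  rw [Cd.ite_out, if_neg h]
  rfl

/-- the structure with `M` additional elements -/
def plus {n : ℕ} (𝕏 : Str σ (Fin n)) (M : ℕ) : Str σ (Fin (n + M)) :=
  fun l x => ∃ z : Fin (σ.ar l) → Fin n, 𝕏 l z ∧ x = fun i => Fin.castAdd M (z i)

/-- the row of a tuple -/
noncomputable def rw' (σ : Sig) (M n : ℕ) (s : Option (Fin σ.m))
    (y : Fin (arP σ M s) → Fin (n + M)) (τ : Fin (arP σ M s) → Fin (arP σ M s)) : List ℕ :=
  rowG (cvT σ M) id (⟨s, τ⟩ : Sym σ M) (ent 0 (fun a b => b + (n + M) * a) (fun a => (y a : ℕ)) τ)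

variable {n : ℕ} {L : List (List ℕ)} (hL : ∀ c ∈ L, c.length = σ.width + 1)

include hL

theorem mem_pA {A : List ℕ} (hA : ph (σ.width + 1) (code n L) = A) (c : List ℕ) :
    c ∈ (pA σ M).out A [] ↔ ∃ (s : Option (Fin σ.m)) (y : Fin (arP σ M s) → Fin (n + M))
      (τ : Fin (arP σ M s) → Fin (arP σ M s)), relP (plus (strOf σ n L) M) M s y ∧
      (∀ a b, y a ≤ y b ↔ τ a ≤ τ b) ∧ c = rw' σ M n s y τ := by
  obtain ⟨M', hM, h0, h1, h2, h3, h4⟩ := ph_vals (n := n) hL
  rw [hA] at hM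
  subst hM
  have hw : ∀ (l : Fin σ.m) (p : Fin (σ.ar l)), (p : ℕ) + 1 < σ.width + 1 := by
    intro l p
    have : σ.ar l ≤ σ.width := Finset.le_sup (f := σ.ar) (Finset.mem_univ l)
    have := p.2
    omega
  have hn : ∀ env, (eN).val A env = n := fun env => h2
  have hB : ∀ env, (eB M).val A env = n + M := fun env => by
    simp only [eB, Ex.val, hn]
  unfold pA
  rw [Wg.mem_seq, mem_nest hB, Wg.mem_loop]
  constructor
  · rintro (⟨ys, e1, e2, h⟩ | ⟨j, hj, h⟩)
    · rw [Wg.mem_many] at h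
      obtain ⟨τ, -, h⟩ := h
      rw [Wg.mem_cond, Wg.mem_row, rowG_map, tv_cO] at h
      obtain ⟨e3, h⟩ := h
      have hv : ∀ a : Fin M, (Ex.var a).val A (ys ++ []) = ys.getD a 0 := fun a => by
        simp only [Ex.val, List.append_nil]
      simp only [hv] at e3
      refine ⟨none, fun a => ⟨ys.getD a 0, ?_⟩, τ, trivial, e3, ?_⟩
      · have ha : (a : ℕ) < ys.length := by
          rw [e1]
          exact a.2
        rw [List.getD_eq_getElem?_getD, List.getElem?_eq_getElem ha]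
        exact e2 _ (List.getElem_mem ha)
      · rw [h]
        unfold rw'
        congr 1
        funext p
        exact ent_val hn hv p
    · rw [Wg.mem_many] at h
      obtain ⟨l, -, h⟩ := h
      rw [Wg.mem_many] at h
      obtain ⟨τ, -, h⟩ := h
      rw [Wg.mem_cond, Wg.mem_row, rowG_map, tv_and, tv_cO] at h
      obtain ⟨⟨hc, ho⟩, h⟩ := h
      simp only [cC, tv_and, tv_le, tv_eq, tv_all, tv_lt, eE, eZ, eN, Ex.val,
        List.getD_cons_zero, h1, h2] at hc
      obtain ⟨⟨c1, c2⟩, c3⟩ := hc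
      have hj' : j < L.length := by
        have : (j + 1) * (σ.width + 1) ≤ L.length * (σ.width + 1) := by
          rw [Nat.mul_comm (j + 1)]
          omega
        exact Nat.lt_of_succ_le (Nat.le_of_mul_le_mul_right this (by omega))
      rw [h4 j hj' 0 (by omega)] at c2
      have hv : ∀ p : Fin (σ.ar l), (eE σ (p + 1)).val A [j] = (L[j]).getD (p + 1) 0 := by
        intro p
        simp only [eE, Ex.val, List.getD_cons_zero]
        exact h4 j hj' _ (hw l p)
      have c4 : ∀ p : Fin (σ.ar l), (L[j]).getD (p + 1) 0 < n := by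
        intro p
        have := c3 p (List.mem_finRange p)
        rwa [h4 j hj' _ (hw l p)] at this
      simp only [hv] at ho
      refine ⟨some l, fun a => Fin.castAdd M ⟨_, c4 a⟩, τ,
        ⟨fun p => ⟨_, c4 p⟩, ⟨L[j], List.getElem_mem hj', c2, fun i => rfl⟩, rfl⟩, ho, ?_⟩
      rw [h]
      unfold rw'
      congr 1
      funext p
      exact ent_val hn hv p
  · rintro ⟨s, y, τ, hr, ho, rfl⟩
    cases s with
    | none =>
      left
      refine ⟨List.ofFn (fun a : Fin M => ((y a : Fin (n + M)) : ℕ)), by simp, ?_, ?_⟩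
      · intro v hv
        rw [List.mem_ofFn] at hv
        obtain ⟨a, rfl⟩ := hv
        exact (y a).2
      · rw [Wg.mem_many]
        refine ⟨τ, Finset.mem_toList.2 (Finset.mem_univ _), ?_⟩
        rw [Wg.mem_cond, Wg.mem_row, rowG_map]
        have hv : ∀ a : Fin M, (Ex.var a).val A
            (List.ofFn (fun a : Fin M => ((y a : Fin (n + M)) : ℕ)) ++ []) = y a := fun a => by
          simp only [Ex.val, List.append_nil]
          rw [List.getD_eq_getElem?_getD, List.getElem?_ofFn, dif_pos a.2]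
          rfl
        refine ⟨tv_cO.2 fun a b => ?_, ?_⟩
        · rw [hv, hv]
          exact ho a b
        · unfold rw'
          congr 1
          funext p
          exact (ent_val hn hv p).symm
    | some l =>
      right
      obtain ⟨t, ⟨c', hc', c1, c2⟩, hy⟩ := hr
      obtain ⟨j, hj, rfl⟩ := List.getElem_of_mem hc'
      refine ⟨j, ?_, ?_⟩
      · simp only [eZ, Ex.val, h1]
        have : L.length ≤ L.length * (σ.width + 1) := Nat.le_mul_of_pos_right _ (by omega)
        omega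
      · have hv : ∀ p : Fin (σ.ar l), (eE σ (p + 1)).val A [j] = y p := by
          intro p
          simp only [eE, Ex.val, List.getD_cons_zero]
          rw [h4 j hj _ (hw l p), c2 p, hy]
          rfl
        rw [Wg.mem_many]
        refine ⟨l, List.mem_finRange l, ?_⟩
        rw [Wg.mem_many]
        refine ⟨τ, Finset.mem_toList.2 (Finset.mem_univ _), ?_⟩
        rw [Wg.mem_cond, Wg.mem_row, rowG_map, tv_and]
        refine ⟨⟨?_, tv_cO.2 fun a b => ?_⟩, ?_⟩
        · simp only [cC, tv_and, tv_le, tv_eq, tv_all, tv_lt, eE, eZ, eN, Ex.val,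
            List.getD_cons_zero, h1, h2]
          refine ⟨⟨?_, ?_⟩, ?_⟩
          · have : (j + 1) * (σ.width + 1) ≤ L.length * (σ.width + 1) :=
              Nat.mul_le_mul_right _ hj
            rw [Nat.mul_comm (j + 1)] at this
            omega
          · rw [h4 j hj 0 (by omega)]
            exact c1
          · intro p _
            rw [h4 j hj _ (hw l p), c2 p]
            exact (t p).2
        · rw [hv, hv]
          exact ho a b
        · unfold rw'
          congr 1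
          funext p
          exact (ent_val hn hv p).symm

theorem red_code : ∃ L' : List (List ℕ), (∀ c ∈ L', c.length =
      (sigOf (Sym σ M) (fun s => Fin (arP σ M s.1) × Fin (arP σ M s.1))).width + 1) ∧
    unary (red σ M (code n L)) = code ((n + M) * (n + M)) L' ∧
    ∀ c, c ∈ L' ↔ ∃ (s : Option (Fin σ.m)) (y : Fin (arP σ M s) → Fin (n + M))
      (τ : Fin (arP σ M s) → Fin (arP σ M s)), relP (plus (strOf σ n L) M) M s y ∧
      (∀ a b, y a ≤ y b ↔ τ a ≤ τ b) ∧ c = rw' σ M n s y τ := by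
  obtain ⟨A, hM, h0, h1, h2, h3, h4⟩ := ph_vals (n := n) hL
  have hV : cV.tv A [] := by
    simp only [cV, tv_and, tv_le, tv_eq, Ex.val, h0, h3]
    exact ⟨le_rfl, trivial⟩
  refine ⟨(pA σ M).out A [], ?_, ?_, mem_pA hL hM⟩
  · intro c hc
    obtain ⟨s, y, τ, -, -, rfl⟩ := (mem_pA hL hM c).1 hc
    exact rowG_length _ _ _ _
  · unfold red pT
    rw [hM, Cd.ite_out, if_pos hV, code_eq]
    simp only [Lg.out, Wg.toLg_out, eB, eN, Ex.val, h2, List.singleton_append]

omit hL

theorem strOf_rows {L' : List (List ℕ)} (hL' : ∀ c, c ∈ L' ↔ ∃ (s : Option (Fin σ.m))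
      (y : Fin (arP σ M s) → Fin (n + M)) (τ : Fin (arP σ M s) → Fin (arP σ M s)),
      relP (plus (strOf σ n L) M) M s y ∧ (∀ a b, y a ≤ y b ↔ τ a ≤ τ b) ∧
        c = rw' σ M n s y τ) (s : Sym σ M) (x : (rT σ M).Ar s → Fin ((n + M) * (n + M))) :
    strOf (sigOf (Sym σ M) (fun s => Fin (arP σ M s.1) × Fin (arP σ M s.1)))
        ((n + M) * (n + M)) L' ((cvT σ M).e s) (x ∘ ((cvT σ M).a s).symm) ↔
      ∃ y : Fin (arP σ M s.1) → Fin (n + M), relP (plus (strOf σ n L) M) M s.1 y ∧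
        (∀ a b, y a ≤ y b ↔ s.2 a ≤ s.2 b) ∧
        ∀ p, ent 0 (fun a b => b + (n + M) * a) (fun a => (y a : ℕ)) s.2 p = (x p : ℕ) := by
  have h1 : strOf (sigOf (Sym σ M) (fun s => Fin (arP σ M s.1) × Fin (arP σ M s.1)))
        ((n + M) * (n + M)) L' ((cvT σ M).e s) (x ∘ ((cvT σ M).a s).symm) ↔
      ∃ c ∈ L', c.getD 0 0 = ((cvT σ M).e s : ℕ) ∧
        ∀ i : Fin ((sigOf (Sym σ M) (fun s => Fin (arP σ M s.1) × Fin (arP σ M s.1))).ar
          ((cvT σ M).e s)), c.getD (i + 1) 0 = ((x ∘ ((cvT σ M).a s).symm) i : ℕ) := Iff.rfl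
  rw [h1]
  constructor
  · rintro ⟨c, hc, h2⟩
    obtain ⟨s', y, τ, hr, ho, rfl⟩ := (hL' c).1 hc
    have h2' : (rowG (cvT σ M) id (⟨s', τ⟩ : Sym σ M)
        (ent 0 (fun a b => b + (n + M) * a) (fun a => (y a : ℕ)) τ)).getD 0 0 =
          ((cvT σ M).e s : ℕ) ∧
        ∀ i : Fin ((sigOf (Sym σ M) (fun s => Fin (arP σ M s.1) × Fin (arP σ M s.1))).ar
          ((cvT σ M).e s)), (rowG (cvT σ M) id (⟨s', τ⟩ : Sym σ M)
        (ent 0 (fun a b => b + (n + M) * a) (fun a => (y a : ℕ)) τ)).getD (i + 1) 0 =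
          (fun i => ((x ∘ ((cvT σ M).a s).symm) i : ℕ)) i := h2
    obtain ⟨h3, h4⟩ := (rowG_mem (cvT σ M) (s := (⟨s', τ⟩ : Sym σ M)) (s' := s)).1 h2'
    subst h3
    refine ⟨y, hr, ho, fun p => ?_⟩
    have h5 := h4 p
    simp only [comp_apply, Equiv.symm_apply_apply] at h5
    exact h5
  · rintro ⟨y, hr, ho, h2⟩
    refine ⟨rw' σ M n s.1 y s.2, (hL' _).2 ⟨s.1, y, s.2, hr, ho, rfl⟩, ?_⟩
    have h3 := (rowG_mem (cvT σ M) (s := s) (s' := s)
      (F := ent 0 (fun a b => b + (n + M) * a) (fun a => (y a : ℕ)) s.2)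
      (x := fun i => ((x ∘ ((cvT σ M).a s).symm) i : ℕ))).2 ⟨rfl, fun p => ?_⟩
    · exact h3
    · simp only [comp_apply, Equiv.symm_apply_apply]
      exact h2 p

end prog

theorem hom_iff {σ : Sig} {M n : ℕ} {V X : Type} [LinearOrder V] (𝔸 : Str σ V) (c : V → V → X)
    {Ls L' : List (List ℕ)} (hL' : ∀ c, c ∈ L' ↔ ∃ (s : Option (Fin σ.m))
      (y : Fin (arP σ M s) → Fin (n + M)) (τ : Fin (arP σ M s) → Fin (arP σ M s)),
      relP (plus (strOf σ n Ls) M) M s y ∧ (∀ a b, y a ≤ y b ↔ τ a ≤ τ b) ∧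
        c = rw' σ M n s y τ) :
    (∃ q : Fin (n + M) → Fin (n + M) → X × Bool,
      ∀ (s : Option (Fin σ.m)) (y : Fin (arP σ M s) → Fin (n + M))
        (τ : Fin (arP σ M s) → Fin (arP σ M s)),
        relP (plus (strOf σ n Ls) M) M s y → (∀ a b, y a ≤ y b ↔ τ a ≤ τ b) →
        ∃ x : Fin (arP σ M s) → V, relP 𝔸 M s x ∧ (∀ a b, τ a = τ b → x a = x b) ∧
          ∀ a b, τ a ≤ τ b → q (y a) (y b) = (c (x a) (x b), decide (τ a = τ b))) ↔
    ∃ f : Fin ((n + M) * (n + M)) → X × Bool,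
      IsHom (strOf (sigOf (Sym σ M) (fun s => Fin (arP σ M s.1) × Fin (arP σ M s.1)))
        ((n + M) * (n + M)) L') (template 𝔸 M c) f := by
  have hT : Corr (cvT σ M) (fun s (q : (rT σ M).Ar s → X × Bool) =>
      ∃ x : Fin (arP σ M s.1) → V, relP 𝔸 M s.1 x ∧
      (∀ a b, s.2 a = s.2 b → x a = x b) ∧
      ∀ a b, s.2 a ≤ s.2 b → q (s.2 a, s.2 b) = (c (x a) (x b), decide (s.2 a = s.2 b)))
      (template 𝔸 M c) := strOn_corr _
  constructor
  · rintro ⟨q, hq⟩
    refine ⟨fun z => q (finProdFinEquiv.symm z).1 (finProdFinEquiv.symm z).2, ?_⟩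
    intro l x hx
    obtain ⟨s, rfl⟩ := (cvT σ M).e.surjective l
    have e1 : x = (x ∘ (cvT σ M).a s) ∘ ((cvT σ M).a s).symm := by
      funext i
      simp
    rw [e1] at hx
    obtain ⟨y, hr, ho, he⟩ := (strOf_rows hL' s _).1 hx
    refine (hT s _).2 ?_
    obtain ⟨w, w1, w2, w3⟩ := hq s.1 y s.2 hr ho
    refine ⟨w, w1, w2, fun a b hab => ?_⟩
    rw [← w3 a b hab]
    have e2 : x ((cvT σ M).a s (s.2 a, s.2 b)) = finProdFinEquiv (y a, y b) := by
      apply Fin.ext
      rw [finProdFinEquiv_apply_val]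
      have e3 := he (s.2 a, s.2 b)
      rw [ent_eq (y := fun a => (y a : ℕ)) ho hab] at e3
      exact e3.symm
    change q (finProdFinEquiv.symm (x ((cvT σ M).a s (s.2 a, s.2 b)))).1
      (finProdFinEquiv.symm (x ((cvT σ M).a s (s.2 a, s.2 b)))).2 = _
    rw [e2, Equiv.symm_apply_apply]
  · rintro ⟨f, hf⟩
    refine ⟨fun i j => f (finProdFinEquiv (i, j)), ?_⟩
    intro s y τ hr ho
    have h1 := (strOf_rows hL' (⟨s, τ⟩ : Sym σ M)
      (fun p => ⟨ent 0 (fun a b => b + (n + M) * a) (fun a => (y a : ℕ)) τ p,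
        ent_lt (fun a => (y a).2) p⟩)).2 ⟨y, hr, ho, fun p => rfl⟩
    obtain ⟨w, w1, w2, w3⟩ := (hT (⟨s, τ⟩ : Sym σ M) _).1 (hf _ _ h1)
    refine ⟨w, w1, w2, fun a b hab => ?_⟩
    rw [← w3 a b hab]
    simp only [comp_apply, Equiv.symm_apply_apply]
    congr 1
    apply Fin.ext
    rw [finProdFinEquiv_apply_val]
    exact (ent_eq (y := fun a => (y a : ℕ)) ho hab).symm

theorem pf_RED (h1 : T_RE1) : T_RED := by
  intro σ V X _ 𝔸 M c fr L Rt hS
  refine manyOne (polyOn_red (σ := σ) (M := M))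
    (Q := fun l => CSP (template 𝔸 M c) (unary l) = true) (fun p => Iff.rfl) (fun x => ?_)
  by_cases h : cV.tv (ph (σ.width + 1) x) []
  · obtain ⟨n, Ls, e1, rfl⟩ := code_of_cV h
    obtain ⟨L', e2, e3, e4⟩ := red_code (M := M) (n := n) e1
    rw [csp_code 𝔸 e1, e3, csp_code (template 𝔸 M c) e2,
      h1 σ V X 𝔸 M c fr L Rt hS n (strOf σ n Ls)]
    exact hom_iff 𝔸 c e4
  · constructor
    · intro hx
      obtain ⟨n, Ls, h1, rfl⟩ := csp_true 𝔸 hx
      obtain ⟨M', hM, h0, -, -, h3, -⟩ := ph_vals (n := n) h1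
      refine absurd ?_ h
      rw [hM]
      simp only [cV, tv_and, tv_le, tv_eq, Ex.val, h0, h3]
      exact ⟨le_rfl, trivial⟩
    · intro hx
      rw [red_bad h] at hx
      exact absurd hx (csp_nil _)

end Pool.Agent.H74.GC
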